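import Pool.Agent.H4.LU.STR

/-! Project LU, module CLO: the smallest face containing a set. -/

set_option autoImplicit false

open scoped BigOperators
open Finset

namespace Pool.LU

theorem clo (hF : FARStmt) : CLOStmt := by
  intro X V _ _ _ _ w S
  classical
  set φ : Finset V := Finset.univ.filter
    (fun u => ∀ x, (∀ v, 0 ≤ w v x) → (∀ v ∈ S, w v x = 0) → w u x = 0) with hφ
  have hmem : ∀ u, u ∈ φ ↔ ∀ x, (∀ v, 0 ≤ w v x) → (∀ v ∈ S, w v x = 0) → w u x = 0 := by
    intro u
    simp [hφ]
  refine ⟨φ, ?_, ?_, ?_⟩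
  · intro u hu
    rw [hmem]
    exact fun x _ h => h u hu
  · have h1 : ∀ u, ∃ x, (∀ v, 0 ≤ w v x) ∧ (∀ v ∈ S, w v x = 0) ∧ (u ∉ φ → 0 < w u x) := by
      intro u
      by_cases hu : u ∈ φ
      · exact ⟨0, fun v => by simp, fun v _ => by simp, fun h => absurd hu h⟩
      · have hu' := hu
        rw [hmem] at hu'
        push Not at hu'
        obtain ⟨x, hx1, hx2, hx3⟩ := hu'
        exact ⟨x, hx1, hx2, fun _ => lt_of_le_of_ne (hx1 u) (Ne.symm hx3)⟩
    choose x hx1 hx2 hx3 using h1
    refine ⟨∑ u, x u, ?_, ?_⟩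
    · intro v hv
      rw [map_sum]
      rw [hmem] at hv
      exact Finset.sum_eq_zero (fun u _ => hv (x u) (hx1 u) (hx2 u))
    · intro v hv
      rw [map_sum]
      exact Finset.sum_pos' (fun u _ => hx1 u v) ⟨v, Finset.mem_univ v, hx3 v hv⟩
  · have h1 : ∀ u, ∃ C : ℝ, 0 ≤ C ∧ (u ∈ φ → ∀ x, (∀ v, 0 ≤ w v x) → w u x ≤ C * bb w S x) := by
      intro u
      by_cases hu : u ∈ φ
      · rcases str_alt hF X V w S u with ⟨x, hx1, hx2, hx3⟩ | ⟨a, c, ha, hc, hcS, heq⟩
        · rw [hmem] at hu
          have := hu x hx1 hx2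
          linarith
        · refine ⟨∑ v, c v, Finset.sum_nonneg (fun v _ => hc v), fun _ x hx => ?_⟩
          have h2 := congrArg (fun f : X →ₗ[ℝ] ℝ => f x) heq
          simp only [LinearMap.add_apply, LinearMap.sum_apply, LinearMap.smul_apply,
            smul_eq_mul] at h2
          have h3 : 0 ≤ ∑ v, a v * w v x :=
            Finset.sum_nonneg (fun v _ => mul_nonneg (ha v) (hx v))
          have h4 : ∑ v, c v * w v x ≤ (∑ v, c v) * bb w S x := by
            rw [Finset.sum_mul]
            refine Finset.sum_le_sum (fun v _ => ?_)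
            by_cases hv : v ∈ S
            · refine mul_le_mul_of_nonneg_left ?_ (hc v)
              unfold bb
              rw [LinearMap.sum_apply]
              exact Finset.single_le_sum (f := fun v => w v x) (fun v _ => hx v) hv
            · rw [hcS v hv]
              simp
          linarith
      · exact ⟨0, le_rfl, fun h => absurd h hu⟩
    choose C hC0 hC using h1
    refine ⟨∑ u, C u + 1, by have := Finset.sum_nonneg (fun u (_ : u ∈ univ) => hC0 u); linarith,
      fun x hx => ?_⟩
    have hS : 0 ≤ bb w S x := by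
      unfold bb
      rw [LinearMap.sum_apply]
      exact Finset.sum_nonneg (fun v _ => hx v)
    have h5 : bb w φ x ≤ ∑ u ∈ φ, C u * bb w S x := by
      conv_lhs => unfold bb
      rw [LinearMap.sum_apply]
      exact Finset.sum_le_sum (fun u hu => hC u hu x hx)
    have h6 : ∑ u ∈ φ, C u * bb w S x ≤ ∑ u, C u * bb w S x :=
      Finset.sum_le_sum_of_subset_of_nonneg (Finset.subset_univ φ)
        (fun u _ _ => mul_nonneg (hC0 u) hS)
    rw [← Finset.sum_mul, ← Finset.sum_mul] at h6
    rw [← Finset.sum_mul] at h5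
    rw [add_mul]
    linarith

end Pool.LU
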