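import Pool.Agent.H41.LU.Stmts

/-! Project LU, module FAR: the lemma of Farkas for finitely many linear forms (proof of Bartl). -/

set_option autoImplicit false

open scoped BigOperators
open Finset

namespace Pool.LU

theorem far_fin (m : ℕ) : ∀ (X : Type) [AddCommGroup X] [Module ℝ X] (a : Fin m → X →ₗ[ℝ] ℝ)
    (b : X →ₗ[ℝ] ℝ), (∀ x, (∀ i, 0 ≤ a i x) → 0 ≤ b x) →
    ∃ u : Fin m → ℝ, (∀ i, 0 ≤ u i) ∧ b = ∑ i, u i • a i := by
  induction m with
  | zero =>
    intro X _ _ a b h
    refine ⟨fun _ => 0, fun i => i.elim0, ?_⟩
    ext x
    have h1 := h x (fun i => i.elim0)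
    have h2 := h (-x) (fun i => i.elim0)
    rw [map_neg] at h2
    simp only [univ_eq_empty, sum_empty, LinearMap.zero_apply]
    linarith
  | succ m ih =>
    intro X _ _ a b h
    by_cases hc : ∀ x, (∀ i : Fin m, 0 ≤ a i.castSucc x) → 0 ≤ b x
    · obtain ⟨u, hu, hb⟩ := ih X (fun i => a i.castSucc) b hc
      refine ⟨Fin.snoc u 0, ?_, ?_⟩
      · intro i
        refine Fin.lastCases ?_ (fun j => ?_) i
        · simp
        · simpa using hu j
      · rw [Fin.sum_univ_castSucc]
        simpa using hb
    · push Not at hc
      obtain ⟨x0, hx0, hb0⟩ := hc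
      have hl0 : a (Fin.last m) x0 < 0 := by
        by_contra hcon
        push Not at hcon
        have := h x0 (fun i => Fin.lastCases hcon (fun j => hx0 j) i)
        linarith
      set t : ℝ := (-(a (Fin.last m) x0))⁻¹ with ht
      have ht0 : 0 < t := inv_pos.mpr (by linarith)
      set xh : X := t • x0 with hxh
      have h1 : a (Fin.last m) xh = -1 := by
        rw [hxh, map_smul, smul_eq_mul, ht]
        have : a (Fin.last m) x0 ≠ 0 := hl0.ne
        field_simp
      have h2 : ∀ i : Fin m, 0 ≤ a i.castSucc xh := by
        intro i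
        rw [hxh, map_smul, smul_eq_mul]
        exact mul_nonneg ht0.le (hx0 i)
      obtain ⟨u, hu, hb⟩ := ih X
        (fun i => a i.castSucc + (a i.castSucc xh) • a (Fin.last m))
        (b + (b xh) • a (Fin.last m)) (by
          intro x hx
          have h3 := h (x + (a (Fin.last m) x) • xh) (by
            intro i
            refine Fin.lastCases ?_ (fun j => ?_) i
            · rw [map_add, map_smul, h1, smul_eq_mul]
              linarith
            · have := hx j
              simp only [LinearMap.add_apply, LinearMap.smul_apply, smul_eq_mul] at this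
              rw [map_add, map_smul, smul_eq_mul]
              linarith)
          rw [map_add, map_smul, smul_eq_mul] at h3
          simp only [LinearMap.add_apply, LinearMap.smul_apply, smul_eq_mul]
          linarith)
      have hbx : b xh < 0 := by
        rw [hxh, map_smul, smul_eq_mul]
        exact mul_neg_of_pos_of_neg ht0 hb0
      refine ⟨Fin.snoc u (∑ i, u i * a i.castSucc xh - b xh), ?_, ?_⟩
      · intro i
        refine Fin.lastCases ?_ (fun j => ?_) i
        · rw [Fin.snoc_last]
          have : 0 ≤ ∑ i, u i * a i.castSucc xh :=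
            Finset.sum_nonneg (fun i _ => mul_nonneg (hu i) (h2 i))
          linarith
        · rw [Fin.snoc_castSucc]
          exact hu j
      · rw [Fin.sum_univ_castSucc]
        simp only [Fin.snoc_castSucc, Fin.snoc_last]
        ext x
        have h4 := congrArg (fun f : X →ₗ[ℝ] ℝ => f x) hb
        simp only [LinearMap.add_apply, LinearMap.smul_apply, smul_eq_mul, LinearMap.sum_apply,
          mul_add, Finset.sum_add_distrib] at h4 ⊢
        have h5 : ∑ i, u i * (a i.castSucc xh * a (Fin.last m) x) =
            (∑ i, u i * a i.castSucc xh) * a (Fin.last m) x := by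
          rw [Finset.sum_mul]
          exact Finset.sum_congr rfl (fun i _ => by ring)
        rw [h5] at h4
        rw [sub_mul]
        linarith

/-- the lemma of Farkas -/
theorem far : FARStmt := by
  intro X ι _ _ _ a b h
  classical
  let e := Fintype.equivFin ι
  obtain ⟨u, hu, hb⟩ := far_fin (Fintype.card ι) X (fun i => a (e.symm i)) b (fun x hx =>
    h x (fun i => by simpa using hx (e i)))
  refine ⟨fun i => u (e i), fun i => hu _, ?_⟩
  rw [hb]
  refine Fintype.sum_equiv e.symm _ _ (fun i => ?_)
  simp

end Pool.LU
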