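import Pool.Agent.H41.LU.Stmts

/-! Project LU, module STR: first consequences of the condition (*). -/

set_option autoImplicit false

open scoped BigOperators
open Finset

namespace Pool.LU

/-- alternative for the face of the cone cut out by `S` -/
theorem str_alt (hF : FARStmt) (X V : Type) [AddCommGroup X] [Module ℝ X] [Fintype V]
    [DecidableEq V] (w : V → X →ₗ[ℝ] ℝ) (S : Finset V) (u : V) :
    (∃ x, (∀ v, 0 ≤ w v x) ∧ (∀ v ∈ S, w v x = 0) ∧ 0 < w u x) ∨
    ∃ a c : V → ℝ, (∀ v, 0 ≤ a v) ∧ (∀ v, 0 ≤ c v) ∧ (∀ v, v ∉ S → c v = 0) ∧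
      w u + ∑ v, a v • w v = ∑ v, c v • w v := by
  by_cases h : ∃ x, (∀ v, 0 ≤ w v x) ∧ (∀ v ∈ S, w v x = 0) ∧ 0 < w u x
  · exact Or.inl h
  · right
    push Not at h
    obtain ⟨U, hU, hb⟩ := hF X (V ⊕ V)
      (Sum.elim w (fun s => if s ∈ S then -(w s) else 0)) (-(w u)) (by
        intro x hx
        have h1 : ∀ v, 0 ≤ w v x := fun v => by simpa using hx (Sum.inl v)
        have h2 : ∀ v ∈ S, w v x = 0 := by
          intro v hv
          have := hx (Sum.inr v)
          simp only [Sum.elim_inr, hv, if_true, LinearMap.neg_apply] at this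
          have := h1 v
          linarith
        have := h x h1 h2
        simp only [LinearMap.neg_apply]
        linarith)
    refine ⟨fun v => U (Sum.inl v), fun v => if v ∈ S then U (Sum.inr v) else 0,
      fun v => hU _, ?_, ?_, ?_⟩
    · intro v
      dsimp only
      split_ifs
      · exact hU _
      · exact le_rfl
    · intro v hv
      simp [hv]
    · rw [Fintype.sum_sum_type] at hb
      simp only [Sum.elim_inl, Sum.elim_inr] at hb
      have h3 : ∑ x, U (Sum.inr x) • (if x ∈ S then -(w x) else 0) =
          -∑ v, (if v ∈ S then U (Sum.inr v) else 0) • w v := by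
        rw [← Finset.sum_neg_distrib]
        refine Finset.sum_congr rfl (fun v _ => ?_)
        split_ifs <;> simp
      rw [h3] at hb
      have h4 : w u = -(∑ x, U (Sum.inl x) • w x + -∑ v, (if v ∈ S then U (Sum.inr v) else 0) • w v) := by
        rw [← hb, neg_neg]
      rw [h4]
      abel

theorem str (hF : FARStmt) : STRStmt := by
  intro X V _ _ _ _ adj w hstar σ hσ
  constructor
  · have h1 : ∀ u, ∃ x, (∀ v, 0 ≤ w v x) ∧ (∀ v ∈ σ, w v x = 0) ∧ (u ∉ σ → 0 < w u x) := by
      intro u
      by_cases hu : u ∈ σ
      · exact ⟨0, fun v => by simp, fun v _ => by simp, fun h => absurd hu h⟩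
      · rcases str_alt hF X V w σ u with ⟨x, hx1, hx2, hx3⟩ | ⟨a, c, ha, hc, hcS, heq⟩
        · exact ⟨x, hx1, hx2, fun _ => hx3⟩
        · exfalso
          have hz := hstar (fun v => c v - a v - (if v = u then 1 else 0)) (by
            simp only [sub_smul, Finset.sum_sub_distrib, ite_smul, one_smul, zero_smul,
              Finset.sum_ite_eq', Finset.mem_univ, if_true]
            rw [← heq]
            abel) (by
            have hmem : ∀ v, 0 < c v - a v - (if v = u then 1 else 0) → v ∈ σ := by
              intro v hv
              by_contra hvs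
              rw [hcS v hvs] at hv
              have := ha v
              split_ifs at hv <;> linarith
            intro v v' hv hv' hne
            exact hσ v (hmem v hv) v' (hmem v' hv') hne)
          have h2 := congrFun hz u
          simp only [if_true, Pi.zero_apply, hcS u hu] at h2
          have := ha u
          linarith
    choose x hx1 hx2 hx3 using h1
    refine ⟨∑ u, x u, ?_, ?_⟩
    · intro v hv
      rw [map_sum]
      exact Finset.sum_eq_zero (fun u _ => hx2 u v hv)
    · intro v hv
      rw [map_sum]
      exact Finset.sum_pos' (fun u _ => hx1 u v) ⟨v, Finset.mem_univ v, hx3 v hv⟩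
  · rw [Fintype.linearIndependent_iff]
    intro g hg
    have h0 : ∑ v, (if h : v ∈ σ then g ⟨v, h⟩ else 0) • w v = 0 := by
      rw [← hg]
      have h1 : ∑ i : σ, g i • w i =
          ∑ i : σ, (fun v => (if h : v ∈ σ then g ⟨v, h⟩ else 0) • w v) i := by
        refine Finset.sum_congr rfl (fun i _ => ?_)
        simp
      rw [h1, Finset.sum_coe_sort σ (fun v => (if h : v ∈ σ then g ⟨v, h⟩ else 0) • w v)]
      symm
      refine Finset.sum_subset (Finset.subset_univ σ) (fun v _ hv => ?_)
      simp [hv]
    have hz := hstar (fun v => if h : v ∈ σ then g ⟨v, h⟩ else 0) h0 (by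
      have hmem : ∀ v, 0 < (if h : v ∈ σ then g ⟨v, h⟩ else 0) → v ∈ σ := by
        intro v hv
        by_contra hvs
        simp [hvs] at hv
      intro v v' hv hv' hne
      exact hσ v (hmem v hv) v' (hmem v' hv') hne)
    intro i
    have := congrFun hz i
    simpa using this

end Pool.LU
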