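import Pool.Agent.H41.LU.Stmts

/-! Project LU, module ACT: the constraints which are active at a point of the polytope. -/

set_option autoImplicit false

open scoped BigOperators
open Finset

namespace Pool.LU

theorem act_ep_pos {V : Type} [Fintype V] [DecidableEq V] (δ : ℝ) (hδ : 0 < δ) (φ : Finset V) :
    0 < ep δ φ := pow_pos hδ _

theorem act_ep_le {V : Type} [Fintype V] [DecidableEq V] (δ : ℝ) (hδ : 0 < δ) (hδ1 : δ ≤ 1)
    (φ ψ : Finset V) (h : φ ⊂ ψ) : ep δ φ ≤ δ * ep δ ψ := by
  have h1 : φ.card < ψ.card := Finset.card_lt_card h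
  have h2 : ψ.card ≤ Fintype.card V := Finset.card_le_univ ψ
  unfold ep
  rw [← pow_succ']
  exact pow_le_pow_of_le_one hδ.le hδ1 (by omega)

theorem act (hC : CLOStmt) : ACTStmt := by
  intro X V _ _ _ _ adj w _
  choose cl hcl1 hcl2 Cc hCc0 hCc using hC X V w
  set C : ℝ := 1 + ∑ S : Finset V, Cc S with hCdef
  have hC1 : ∀ S, Cc S ≤ C := by
    intro S
    have := Finset.single_le_sum (f := Cc) (fun S _ => (hCc0 S).le) (Finset.mem_univ S)
    linarith
  have hCpos : 1 ≤ C := by
    have : 0 ≤ ∑ S : Finset V, Cc S := Finset.sum_nonneg (fun S _ => (hCc0 S).le)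
    linarith
  refine ⟨1 / (2 * C + 1), by positivity, ?_⟩
  intro δ hδ hδ1 x hx
  obtain ⟨hx0, hx1, hx2⟩ := hx
  have hδC : 2 * C * δ < 1 := by
    rw [lt_div_iff₀ (by linarith)] at hδ1
    nlinarith
  have hδle : δ ≤ 1 := by nlinarith
  have hbb : ∀ S : Finset V, 0 ≤ bb w S x := by
    intro S
    unfold bb
    rw [LinearMap.sum_apply]
    exact Finset.sum_nonneg (fun v _ => hx0 v)
  have key : ∀ S : Finset V, ¬ IsCl adj S → ep δ (cl S) ≤ C * bb w S x := by
    intro S hS
    have h1 : IsE adj w (cl S) := by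
      refine ⟨hcl2 S, fun h => hS ?_⟩
      intro u hu v hv hne
      exact h u (hcl1 S hu) v (hcl1 S hv) hne
    have h2 := hx2 (cl S) h1
    have h3 := hCc S x hx0
    have h4 := mul_le_mul_of_nonneg_right (hC1 S) (hbb S)
    linarith
  refine ⟨?_, ?_, ?_⟩
  · intro u v hu hv hne
    by_contra hadj
    have h1 : ¬ IsCl adj ({u, v} : Finset V) := by
      intro h
      exact hadj (h u (by simp) v (by simp) hne)
    have h2 := key _ h1
    have h3 : bb w ({u, v} : Finset V) x = 0 := by
      unfold bb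
      rw [LinearMap.sum_apply]
      refine Finset.sum_eq_zero (fun y hy => ?_)
      rw [Finset.mem_insert, Finset.mem_singleton] at hy
      rcases hy with rfl | rfl
      · exact hu
      · exact hv
    rw [h3, mul_zero] at h2
    have := act_ep_pos δ hδ (cl ({u, v} : Finset V))
    linarith
  · intro v φ hφ hv hact
    by_contra hvφ
    have h1 : ¬ IsCl adj (insert v φ) := by
      intro h
      apply hφ.2
      intro a ha b hb hne
      exact h a (Finset.mem_insert_of_mem ha) b (Finset.mem_insert_of_mem hb) hne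
    have h2 := key _ h1
    have h3 : bb w (insert v φ) x = ep δ φ := by
      rw [← hact]
      unfold bb
      rw [Finset.sum_insert hvφ, LinearMap.add_apply, hv, zero_add]
    rw [h3] at h2
    have h4 : φ ⊂ cl (insert v φ) := by
      refine ⟨fun a ha => hcl1 _ (Finset.mem_insert_of_mem ha), fun h => hvφ ?_⟩
      exact h (hcl1 _ (Finset.mem_insert_self v φ))
    have h5 := act_ep_le δ hδ hδle φ _ h4
    have h6 := act_ep_pos δ hδ (cl (insert v φ))
    nlinarith
  · intro φ ψ hφ hψ hactφ hactψ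
    by_contra hcon
    push Not at hcon
    obtain ⟨hn1, hn2⟩ := hcon
    have h1 : ¬ IsCl adj (φ ∪ ψ) := by
      intro h
      apply hφ.2
      intro a ha b hb hne
      exact h a (Finset.mem_union_left _ ha) b (Finset.mem_union_left _ hb) hne
    have h2 := key _ h1
    have h3 : bb w (φ ∪ ψ) x ≤ ep δ φ + ep δ ψ := by
      rw [← hactφ, ← hactψ]
      unfold bb
      rw [LinearMap.sum_apply, LinearMap.sum_apply, LinearMap.sum_apply]
      have := Finset.sum_union_inter (s₁ := φ) (s₂ := ψ) (f := fun v => w v x)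
      have h4 : 0 ≤ ∑ v ∈ φ ∩ ψ, w v x := Finset.sum_nonneg (fun v _ => hx0 v)
      linarith
    have h5 : φ ⊂ cl (φ ∪ ψ) := by
      refine ⟨fun a ha => hcl1 _ (Finset.mem_union_left _ ha), fun h => hn2 ?_⟩
      exact fun a ha => h (hcl1 _ (Finset.mem_union_right _ ha))
    have h6 : ψ ⊂ cl (φ ∪ ψ) := by
      refine ⟨fun a ha => hcl1 _ (Finset.mem_union_right _ ha), fun h => hn1 ?_⟩
      exact fun a ha => h (hcl1 _ (Finset.mem_union_left _ ha))
    have h7 := act_ep_le δ hδ hδle φ _ h5
    have h8 := act_ep_le δ hδ hδle ψ _ h6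
    have h9 := act_ep_pos δ hδ (cl (φ ∪ ψ))
    have h10 : C * bb w (φ ∪ ψ) x ≤ C * (2 * (δ * ep δ (cl (φ ∪ ψ)))) := by
      refine mul_le_mul_of_nonneg_left ?_ (by linarith)
      linarith
    nlinarith

end Pool.LU
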